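import Mathlib
import Pool.Agent.H85.Iwasawa

/-!
# Monotonicity on average of the `𝔤`-purity under complexified free operations

Idea.  Let `ξ = ∑ a, ⟨g a⟩ g a` be the Hermitian element of `i𝔤` in the direction of the mean of
`ψ`.  Every operation in the group is `M = U B` with `U` unitary and normalising `𝔤`, and `B`
preserving the filtration of the space by large eigenvalues of `ξ` (Iwasawa decomposition).
The spectral distribution of `ξ` moves up on average under the block triangular instrument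
`B k`, hence so does its mean, and Cauchy-Schwarz in `𝔤` finishes the proof.
-/

open Matrix

namespace Pool.Agent.Results.MP_5b3ffa_mp.AveragePurity

section Definitions

/-- The real span of `i g_1, …, i g_D`. -/
noncomputable def lieSpan {d D : ℕ} (g : Fin D → Matrix (Fin d) (Fin d) ℂ) :
    Submodule ℝ (Matrix (Fin d) (Fin d) ℂ) :=
  Submodule.span ℝ (Set.range fun a => Complex.I • g a)

/-- The rank one operator `|φ⟩⟨φ|`. -/
noncomputable def pureState {d : ℕ} (φ : Fin d → ℂ) : Matrix (Fin d) (Fin d) ℂ :=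
  Matrix.vecMulVec φ (star φ)

/-- The `𝔤`-purity `𝒫(ρ) = (1/N) ∑ a, Tr[ρ g_a]²`. -/
noncomputable def purity {d D : ℕ} (N : ℝ) (g : Fin D → Matrix (Fin d) (Fin d) ℂ)
    (ρ : Matrix (Fin d) (Fin d) ℂ) : ℝ :=
  (1 / N) * ∑ a, ((ρ * g a).trace.re) ^ 2

/-- The probability `p = ⟨ψ|M⋆ M|ψ⟩` of the outcome `M`. -/
noncomputable def prob {d : ℕ} (M : Matrix (Fin d) (Fin d) ℂ) (ψ : Fin d → ℂ) : ℝ :=
  (star ψ ⬝ᵥ (Mᴴ * M) *ᵥ ψ).re

/-- The state `M|ψ⟩/√p` after the outcome `M`. -/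
noncomputable def post {d : ℕ} (M : Matrix (Fin d) (Fin d) ℂ) (ψ : Fin d → ℂ) : Fin d → ℂ :=
  ((1 / Real.sqrt (prob M ψ) : ℝ) : ℂ) • (M *ᵥ ψ)

/-- The group of complexified free operations: the group of invertible matrices generated by the
exponentials `exp (X + i Y)`, `X, Y ∈ 𝔤`, and the nonzero complex scalars. -/
def cfo {n : Type*} [Fintype n] [DecidableEq n] (𝔤 : Submodule ℝ (Matrix n n ℂ)) :
    Subgroup (Matrix n n ℂ)ˣ :=
  Subgroup.closure
    ({u | ∃ X ∈ 𝔤, ∃ Y ∈ 𝔤, (u : Matrix n n ℂ) =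
        NormedSpace.exp (X + Complex.I • Y)} ∪
      {u | ∃ z : ℂ, z ≠ 0 ∧ (u : Matrix n n ℂ) = z • (1 : Matrix n n ℂ)})

end Definitions

open NormedSpace Pool.Agent.H85.Iwasawa
open scoped Matrix.Norms.L2Operator

section Factor

variable {n : Type*} [Fintype n] [DecidableEq n]

/-- Iwasawa factorisation in the group of complexified free operations. -/
lemma cfo_factor {𝔤 : Submodule ℝ (Matrix n n ℂ)} (hskew : ∀ X ∈ 𝔤, Xᴴ = -X)
    (hbr : ∀ X ∈ 𝔤, ∀ Y ∈ 𝔤, X * Y - Y * X ∈ 𝔤) (l : n → ℝ) (V : Matrix n n ℂ)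
    (hV1 : star V * V = 1) (hV2 : V * star V = 1)
    (hl : V * Matrix.diagonal (fun i => (l i : ℂ)) * star V ∈ cplx 𝔤)
    {M : (Matrix n n ℂ)ˣ} (hM : M ∈ cfo 𝔤) :
    ∃ U ∈ normaliser 𝔤, ∃ B : Matrix n n ℂ, star V * B * V ∈ upper l ∧
      (M : Matrix n n ℂ) = U * B := by
  have hexpmul : ∀ W ∈ cplx 𝔤, ∀ N : Matrix n n ℂ,
      (∃ U ∈ normaliser 𝔤, ∃ B : Matrix n n ℂ, star V * B * V ∈ upper l ∧ N = U * B) →
      (∃ U ∈ normaliser 𝔤, ∃ B : Matrix n n ℂ, star V * B * V ∈ upper l ∧ exp W * N = U * B) := by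
    rintro W hW N ⟨U, hU, B, hB, rfl⟩
    obtain ⟨U1, hU1, B1, hB1, h1⟩ := exp_factor hskew hbr l V hV1 hV2 hl (conj_mem_cplx hU hW)
    refine ⟨U * U1, mul_mem_normaliser hU hU1, B1 * B, ?_, ?_⟩
    · have e : star V * (B1 * B) * V = (star V * B1 * V) * (star V * B * V) := by
        calc star V * (B1 * B) * V = star V * B1 * 1 * B * V := by noncomm_ring
          _ = star V * B1 * (V * star V) * B * V := by rw [hV2]
          _ = _ := by noncomm_ring
      rw [e]; exact mul_mem_upper hB1 hB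
    · have hsemi : SemiconjBy U (star U * W * U) W := by
        unfold SemiconjBy
        calc U * (star U * W * U) = (U * star U) * W * U := by noncomm_ring
          _ = W * U := by rw [hU.2.1, one_mul]
      have h3 : SemiconjBy U (exp (star U * W * U)) (exp W) := by
        let _ : NormedAlgebra ℚ (Matrix n n ℂ) := NormedAlgebra.restrictScalars ℚ ℝ _
        exact SemiconjBy.exp_right (𝔸 := Matrix n n ℂ) hsemi
      calc exp W * (U * B) = (exp W * U) * B := by rw [mul_assoc]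
        _ = (U * exp (star U * W * U)) * B := by rw [h3.eq]
        _ = U * U1 * (B1 * B) := by rw [h1]; noncomm_ring
  have hsmul : ∀ z : ℂ, ∀ N : Matrix n n ℂ,
      (∃ U ∈ normaliser 𝔤, ∃ B : Matrix n n ℂ, star V * B * V ∈ upper l ∧ N = U * B) →
      (∃ U ∈ normaliser 𝔤, ∃ B : Matrix n n ℂ, star V * B * V ∈ upper l ∧ z • N = U * B) := by
    rintro z N ⟨U, hU, B, hB, rfl⟩
    refine ⟨U, hU, z • B, ?_, by simp⟩
    intro i j hij
    have := hB i j hij
    simp only [mul_smul_comm, smul_mul_assoc, Matrix.smul_apply, this, smul_zero]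
  unfold cfo at hM
  induction hM using Subgroup.closure_induction_left with
  | one => exact ⟨1, one_mem_normaliser 𝔤, 1, by simpa [hV1] using one_mem_upper l, by simp⟩
  | mul_left x hx y hy ih =>
    rcases hx with ⟨X, hX, Y, hY, h⟩ | ⟨z, -, h⟩
    · rw [Units.val_mul, h]
      exact hexpmul _ ⟨X, hX, Y, hY, rfl⟩ _ ih
    · rw [Units.val_mul, h, smul_mul_assoc, one_mul]
      exact hsmul z _ ih
  | inv_mul_cancel x hx y hy ih =>
    rcases hx with ⟨X, hX, Y, hY, h⟩ | ⟨z, hz, h⟩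
    · have hinv : ((x⁻¹ : (Matrix n n ℂ)ˣ) : Matrix n n ℂ) = exp (-X + Complex.I • (-Y)) := by
        refine Units.inv_eq_of_mul_eq_one_right ?_
        rw [h]
        have e : -X + Complex.I • (-Y) = -(X + Complex.I • Y) := by
          rw [smul_neg]; abel
        rw [e, ← Matrix.exp_add_of_commute _ _
          (Commute.neg_right (Commute.refl (X + Complex.I • Y)))]
        simp
      rw [Units.val_mul, hinv]
      exact hexpmul _ ⟨-X, 𝔤.neg_mem hX, -Y, 𝔤.neg_mem hY, rfl⟩ _ ih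
    · have hinv : ((x⁻¹ : (Matrix n n ℂ)ˣ) : Matrix n n ℂ) = z⁻¹ • (1 : Matrix n n ℂ) := by
        refine Units.inv_eq_of_mul_eq_one_right ?_
        rw [h]
        simp [smul_smul, hz]
      rw [Units.val_mul, hinv, smul_mul_assoc, one_mul]
      exact hsmul _ _ ih

end Factor

section Main

lemma trace_pureState_mul {d : ℕ} (φ : Fin d → ℂ) (A : Matrix (Fin d) (Fin d) ℂ) :
    (pureState φ * A).trace = star φ ⬝ᵥ A *ᵥ φ := by
  rw [pureState, Matrix.vecMulVec_mul, Matrix.trace_vecMulVec, dotProduct_comm,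
    Matrix.dotProduct_mulVec]

lemma prob_nonneg {d : ℕ} (M : Matrix (Fin d) (Fin d) ℂ) (ψ : Fin d → ℂ) : 0 ≤ prob M ψ := by
  rw [prob, ← sum_normSq_eq]
  exact Finset.sum_nonneg fun i _ => Complex.normSq_nonneg _

lemma prob_mul_purity {d D : ℕ} (N : ℝ) (g : Fin D → Matrix (Fin d) (Fin d) ℂ)
    (M : Matrix (Fin d) (Fin d) ℂ) (ψ : Fin d → ℂ) :
    prob M ψ * purity N g (pureState (post M ψ)) =
      (1 / N) * ∑ a, ((star (M *ᵥ ψ) ⬝ᵥ g a *ᵥ (M *ᵥ ψ)).re) ^ 2 / prob M ψ := by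
  set p := prob M ψ with hp
  have hp0 : 0 ≤ p := prob_nonneg M ψ
  have h1 : ∀ a, ((pureState (post M ψ) * g a).trace).re =
      (1 / p) * (star (M *ᵥ ψ) ⬝ᵥ g a *ᵥ (M *ᵥ ψ)).re := by
    intro a
    rw [trace_pureState_mul, post, ← hp]
    set r : ℝ := 1 / Real.sqrt p with hr
    have hr2 : r * r = 1 / p := by
      rw [hr, div_mul_div_comm, one_mul, Real.mul_self_sqrt hp0]
    rw [star_smul, Matrix.mulVec_smul, smul_dotProduct, dotProduct_smul, smul_smul]
    have : star (r : ℂ) * (r : ℂ) = ((1 / p : ℝ) : ℂ) := by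
      rw [← hr2]; simp
    rw [this, smul_eq_mul, Complex.re_ofReal_mul]
  rw [purity]
  simp only [h1]
  rcases hp0.eq_or_lt with h0 | h0
  · rw [← h0]; simp
  · simp only [Finset.mul_sum]
    refine Finset.sum_congr rfl fun a _ => ?_
    field_simp

lemma re_expect_diag {n : Type*} [Fintype n] [DecidableEq n] (V : Matrix n n ℂ) (l : n → ℝ)
    (φ : n → ℂ) :
    (star φ ⬝ᵥ (V * Matrix.diagonal (fun i => (l i : ℂ)) * star V) *ᵥ φ).re =
      ∑ i, l i * Complex.normSq ((star V *ᵥ φ) i) := by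
  have h : star φ ⬝ᵥ (V * Matrix.diagonal (fun i => (l i : ℂ)) * star V) *ᵥ φ =
      star (star V *ᵥ φ) ⬝ᵥ Matrix.diagonal (fun i => (l i : ℂ)) *ᵥ (star V *ᵥ φ) := by
    rw [Matrix.star_mulVec, ← Matrix.star_eq_conjTranspose, star_star, ← Matrix.mulVec_mulVec,
      ← Matrix.mulVec_mulVec, Matrix.dotProduct_mulVec]
  rw [h]
  simp only [dotProduct, Complex.re_sum, Matrix.mulVec_diagonal, Pi.star_apply]
  refine Finset.sum_congr rfl fun i _ => ?_
  simp [Complex.normSq_apply]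
  ring

lemma trace_sum_smul_sq {d D : ℕ} (g : Fin D → Matrix (Fin d) (Fin d) ℂ) (c : ℝ)
    (horth : ∀ a b, (g a * g b).trace = if a = b then (c : ℂ) else 0) (η : Fin D → ℝ) :
    ((∑ a, η a • g a) * (∑ a, η a • g a)).trace = ((c * ∑ a, η a ^ 2 : ℝ) : ℂ) := by
  rw [Finset.sum_mul_sum, Matrix.trace_sum]
  push_cast
  rw [Finset.mul_sum]
  refine Finset.sum_congr rfl fun a _ => ?_
  rw [Matrix.trace_sum]
  have : ∀ b, (η a • g a * η b • g b).trace = (η a * η b : ℂ) * (if a = b then (c : ℂ) else 0) := by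
    intro b
    rw [smul_mul_smul_comm, Matrix.trace_smul, horth]
    simp
  simp only [this]
  simp
  ring

lemma expect_sum_smul {d D : ℕ} (g : Fin D → Matrix (Fin d) (Fin d) ℂ) (η : Fin D → ℝ)
    (φ : Fin d → ℂ) :
    (star φ ⬝ᵥ (∑ a, η a • g a) *ᵥ φ).re = ∑ a, η a * (star φ ⬝ᵥ g a *ᵥ φ).re := by
  rw [Matrix.sum_mulVec, dotProduct_sum, Complex.re_sum]
  refine Finset.sum_congr rfl fun a _ => ?_
  rw [Matrix.smul_mulVec, dotProduct_smul]
  simp

/-- **Monotonicity on average of the `𝔤`-purity under complexified free operations.** -/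
theorem result {d D : ℕ} (g : Fin D → Matrix (Fin d) (Fin d) ℂ)
    (hherm : ∀ a, (g a).IsHermitian)
    (c : ℝ) (hc : 0 < c)
    (horth : ∀ a b, (g a * g b).trace = if a = b then (c : ℂ) else 0)
    (hlie : ∀ X ∈ lieSpan g, ∀ Y ∈ lieSpan g, X * Y - Y * X ∈ lieSpan g)
    (N : ℝ) (hN : 0 < N)
    {K : Type} [Fintype K] (M : K → (Matrix (Fin d) (Fin d) ℂ)ˣ)
    (hM : ∀ k, M k ∈ cfo (lieSpan g))
    (hsum : ∑ k, (M k : Matrix (Fin d) (Fin d) ℂ)ᴴ * (M k : Matrix (Fin d) (Fin d) ℂ) = 1)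
    (ψ : Fin d → ℂ) (hψ : star ψ ⬝ᵥ ψ = 1) :
    purity N g (pureState ψ) ≤
      ∑ k, prob (M k : Matrix (Fin d) (Fin d) ℂ) ψ *
        purity N g (pureState (post (M k : Matrix (Fin d) (Fin d) ℂ) ψ)) := by
  classical
  set 𝔤 := lieSpan g with h𝔤
  have hmem : ∀ A, A ∈ 𝔤 ↔ ∃ η : Fin D → ℝ, ∑ a, η a • (Complex.I • g a) = A := fun A =>
    Submodule.mem_span_range_iff_exists_fun ℝ
  have hskew : ∀ X ∈ 𝔤, Xᴴ = -X := by
    intro X hX
    obtain ⟨η, rfl⟩ := (hmem X).1 hX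
    rw [Matrix.conjTranspose_sum, ← Finset.sum_neg_distrib]
    refine Finset.sum_congr rfl fun a _ => ?_
    rw [Matrix.conjTranspose_smul, Matrix.conjTranspose_smul, (hherm a).eq]
    simp
  -- the direction of the mean
  let J : Fin D → ℝ := fun a => (star ψ ⬝ᵥ g a *ᵥ ψ).re
  let ξ : Matrix (Fin d) (Fin d) ℂ := ∑ a, J a • g a
  have hξH : ξ.IsHermitian := by
    unfold Matrix.IsHermitian
    simp only [ξ]
    rw [Matrix.conjTranspose_sum]
    refine Finset.sum_congr rfl fun a _ => ?_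
    rw [Matrix.conjTranspose_smul, (hherm a).eq]
    simp
  have hIξ : Complex.I • ξ ∈ 𝔤 := by
    refine (hmem _).2 ⟨J, ?_⟩
    simp only [ξ]
    rw [Finset.smul_sum]
    exact Finset.sum_congr rfl fun a _ => smul_comm _ _ _
  have hξc : ξ ∈ cplx 𝔤 := by
    refine ⟨0, 𝔤.zero_mem, -(Complex.I • ξ), 𝔤.neg_mem hIξ, ?_⟩
    rw [smul_neg, smul_smul, Complex.I_mul_I]; simp
  -- diagonalise
  let V : Matrix (Fin d) (Fin d) ℂ := hξH.eigenvectorUnitary
  let l : Fin d → ℝ := hξH.eigenvalues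
  have hV1 : star V * V = 1 := Unitary.coe_star_mul_self hξH.eigenvectorUnitary
  have hV2 : V * star V = 1 := Unitary.coe_mul_star_self hξH.eigenvectorUnitary
  have hξd : V * Matrix.diagonal (fun i => (l i : ℂ)) * star V = ξ := by
    have := hξH.spectral_theorem
    rw [Unitary.conjStarAlgAut_apply] at this
    exact this.symm
  have hfac : ∀ k, ∃ U ∈ normaliser 𝔤, ∃ B : Matrix (Fin d) (Fin d) ℂ,
      star V * B * V ∈ upper l ∧ (M k : Matrix (Fin d) (Fin d) ℂ) = U * B := fun k =>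
    cfo_factor hskew hlie l V hV1 hV2 (by rw [hξd]; exact hξc) (hM k)
  choose U hU B hB hMUB using hfac
  have hBM : ∀ k, B k = star (U k) * (M k : Matrix (Fin d) (Fin d) ℂ) := by
    intro k
    rw [hMUB k, ← mul_assoc, (hU k).1, one_mul]
  have hBB : ∀ k, (B k)ᴴ * B k =
      (M k : Matrix (Fin d) (Fin d) ℂ)ᴴ * (M k : Matrix (Fin d) (Fin d) ℂ) := by
    intro k
    rw [hBM k, Matrix.conjTranspose_mul, ← Matrix.star_eq_conjTranspose (star (U k)), star_star]
    calc (M k : Matrix (Fin d) (Fin d) ℂ)ᴴ * U k * (star (U k) * (M k : Matrix (Fin d) (Fin d) ℂ))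
        = (M k : Matrix (Fin d) (Fin d) ℂ)ᴴ * (U k * star (U k)) *
            (M k : Matrix (Fin d) (Fin d) ℂ) := by noncomm_ring
      _ = _ := by rw [(hU k).2.1, mul_one]
  -- mean of ξ
  have hmean : (star ψ ⬝ᵥ ξ *ᵥ ψ).re = ∑ a, J a ^ 2 := by
    simp only [ξ]
    rw [expect_sum_smul]
    exact Finset.sum_congr rfl fun a _ => by simp only [J]; ring
  -- the spectral mean increases
  have hup : (star ψ ⬝ᵥ ξ *ᵥ ψ).re ≤ ∑ k, (star (B k *ᵥ ψ) ⬝ᵥ ξ *ᵥ (B k *ᵥ ψ)).re := by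
    have h1 := spectral_mean_le l (fun k => star V * B k * V) hB ?_ (star V *ᵥ ψ)
    · have h2 : ∀ k, (star V * B k * V) *ᵥ (star V *ᵥ ψ) = star V *ᵥ (B k *ᵥ ψ) := by
        intro k
        rw [Matrix.mulVec_mulVec, mul_assoc, hV2, mul_one, Matrix.mulVec_mulVec]
      simp only [h2] at h1
      simp only [← re_expect_diag, hξd] at h1
      exact h1
    · have h3 : ∀ k, (star V * B k * V)ᴴ * (star V * B k * V) =
          star V * ((M k : Matrix (Fin d) (Fin d) ℂ)ᴴ * (M k : Matrix (Fin d) (Fin d) ℂ)) * V := by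
        intro k
        rw [← hBB k, ← Matrix.star_eq_conjTranspose, star_mul, star_mul, star_star,
          Matrix.star_eq_conjTranspose (B k)]
        calc star V * ((B k)ᴴ * V) * (star V * B k * V)
            = star V * (B k)ᴴ * (V * star V) * B k * V := by noncomm_ring
          _ = _ := by rw [hV2]; noncomm_ring
      simp only [h3]
      rw [← Finset.sum_mul, ← Finset.mul_sum, hsum, mul_one, hV1]
  -- rotate the direction
  have hrot : ∀ k, ∃ η : Fin D → ℝ, ∑ a, η a ^ 2 = ∑ a, J a ^ 2 ∧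
      (star (B k *ᵥ ψ) ⬝ᵥ ξ *ᵥ (B k *ᵥ ψ)).re =
        ∑ a, η a * (star ((M k : Matrix (Fin d) (Fin d) ℂ) *ᵥ ψ) ⬝ᵥ
          g a *ᵥ ((M k : Matrix (Fin d) (Fin d) ℂ) *ᵥ ψ)).re := by
    intro k
    obtain ⟨η, hη⟩ := (hmem _).1 ((hU k).2.2.1 _ hIξ)
    have hη' : ∑ a, η a • g a = U k * ξ * star (U k) := by
      have h4 : Complex.I • ∑ a, η a • g a = Complex.I • (U k * ξ * star (U k)) := by
        rw [Finset.smul_sum]
        rw [← smul_mul_assoc, ← mul_smul_comm, ← hη]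
        exact Finset.sum_congr rfl fun a _ => smul_comm _ _ _
      exact smul_right_injective _ Complex.I_ne_zero h4
    refine ⟨η, ?_, ?_⟩
    · have h5 := trace_sum_smul_sq g c horth η
      have h6 := trace_sum_smul_sq g c horth J
      have h7 : ((∑ a, η a • g a) * (∑ a, η a • g a)).trace = (ξ * ξ).trace := by
        rw [hη']
        calc (U k * ξ * star (U k) * (U k * ξ * star (U k))).trace
            = (U k * (ξ * (star (U k) * U k) * ξ) * star (U k)).trace := by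
              congr 1; noncomm_ring
          _ = (star (U k) * (U k * (ξ * (star (U k) * U k) * ξ))).trace := by
              rw [Matrix.trace_mul_comm]
          _ = ((star (U k) * U k) * (ξ * (star (U k) * U k) * ξ)).trace := by
              congr 1; noncomm_ring
          _ = (ξ * ξ).trace := by rw [(hU k).1, one_mul, mul_one]
      have h8 : ((c * ∑ a, η a ^ 2 : ℝ) : ℂ) = ((c * ∑ a, J a ^ 2 : ℝ) : ℂ) := by
        rw [← h5, h7]; exact h6
      have h9 : c * ∑ a, η a ^ 2 = c * ∑ a, J a ^ 2 := by exact_mod_cast h8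
      exact mul_left_cancel₀ hc.ne' h9
    · rw [← expect_sum_smul, hη']
      congr 1
      have h10 : B k *ᵥ ψ = star (U k) *ᵥ ((M k : Matrix (Fin d) (Fin d) ℂ) *ᵥ ψ) := by
        rw [hBM k, Matrix.mulVec_mulVec]
      rw [h10, Matrix.star_mulVec, ← Matrix.star_eq_conjTranspose, star_star,
        ← Matrix.mulVec_mulVec, ← Matrix.mulVec_mulVec, Matrix.dotProduct_mulVec _ (U k)]
  choose η hη1 hη2 using hrot
  have hp1 : ∑ k, prob (M k : Matrix (Fin d) (Fin d) ℂ) ψ = 1 := by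
    simp only [prob]
    rw [← Complex.re_sum, ← dotProduct_sum, ← Matrix.sum_mulVec, hsum]
    simp [hψ]
  -- outcome-wise Cauchy-Schwarz
  have hcs : ∀ k, 2 * (star (B k *ᵥ ψ) ⬝ᵥ ξ *ᵥ (B k *ᵥ ψ)).re ≤
      prob (M k : Matrix (Fin d) (Fin d) ℂ) ψ * ∑ a, J a ^ 2 +
        ∑ a, ((star ((M k : Matrix (Fin d) (Fin d) ℂ) *ᵥ ψ) ⬝ᵥ
          g a *ᵥ ((M k : Matrix (Fin d) (Fin d) ℂ) *ᵥ ψ)).re) ^ 2 /
          prob (M k : Matrix (Fin d) (Fin d) ℂ) ψ := by
    intro k
    rw [hη2 k, ← hη1 k, Finset.mul_sum, Finset.mul_sum, ← Finset.sum_add_distrib]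
    refine Finset.sum_le_sum fun a _ => ?_
    set v := (star ((M k : Matrix (Fin d) (Fin d) ℂ) *ᵥ ψ) ⬝ᵥ
          g a *ᵥ ((M k : Matrix (Fin d) (Fin d) ℂ) *ᵥ ψ)).re with hv
    set p := prob (M k : Matrix (Fin d) (Fin d) ℂ) ψ with hp
    have hp0 : 0 ≤ p := prob_nonneg _ ψ
    rcases hp0.eq_or_lt with h0 | h0
    · have hz : (M k : Matrix (Fin d) (Fin d) ℂ) *ᵥ ψ = 0 := by
        have h11 : ∑ i, Complex.normSq (((M k : Matrix (Fin d) (Fin d) ℂ) *ᵥ ψ) i) = 0 := by
          rw [sum_normSq_eq]; exact h0.symm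
        funext i
        have := (Finset.sum_eq_zero_iff_of_nonneg (fun i _ => Complex.normSq_nonneg _)).1 h11 i
          (Finset.mem_univ i)
        simpa using this
      have hv0 : v = 0 := by rw [hv, hz]; simp
      rw [hv0, ← h0]; simp
    · have h12 : 0 ≤ (p * η k a - v) ^ 2 / p := by positivity
      have h13 : (p * η k a - v) ^ 2 / p = p * η k a ^ 2 - 2 * (η k a * v) + v ^ 2 / p := by
        field_simp
        ring
      linarith
  have hfin : ∑ a, J a ^ 2 ≤ ∑ k, ∑ a, ((star ((M k : Matrix (Fin d) (Fin d) ℂ) *ᵥ ψ) ⬝ᵥ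
          g a *ᵥ ((M k : Matrix (Fin d) (Fin d) ℂ) *ᵥ ψ)).re) ^ 2 /
          prob (M k : Matrix (Fin d) (Fin d) ℂ) ψ := by
    have h14 := Finset.sum_le_sum fun k (_ : k ∈ Finset.univ) => hcs k
    rw [← Finset.mul_sum, Finset.sum_add_distrib, ← Finset.sum_mul, hp1, one_mul] at h14
    rw [hmean] at hup
    linarith
  have hN' : 0 ≤ 1 / N := by positivity
  calc purity N g (pureState ψ) = (1 / N) * ∑ a, J a ^ 2 := by
        rw [purity]
        simp only [trace_pureState_mul, J]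
    _ ≤ (1 / N) * ∑ k, ∑ a, ((star ((M k : Matrix (Fin d) (Fin d) ℂ) *ᵥ ψ) ⬝ᵥ
          g a *ᵥ ((M k : Matrix (Fin d) (Fin d) ℂ) *ᵥ ψ)).re) ^ 2 /
          prob (M k : Matrix (Fin d) (Fin d) ℂ) ψ := mul_le_mul_of_nonneg_left hfin hN'
    _ = _ := by
        rw [Finset.mul_sum]
        exact Finset.sum_congr rfl fun k _ => (prob_mul_purity N g _ ψ).symm

end Main

end Pool.Agent.Results.MP_5b3ffa_mp.AveragePurity
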